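import Mathlib
import Pool.Agent.H870R2.LS.SFinal

/-! Networks which decide whether 3 divides the number of satisfying assignments of a monotone 2-CNF
with at most 11 clauses per variable, and which are symmetric under the 3-cycles inside disjoint
blocks of four variables. -/

namespace Pool.Agent.H870R2.PC

open H522R2.LS

/-- **Locally symmetric networks for counting satisfying assignments of monotone 2-CNFs.** -/
theorem _root_.Pool.Agent.Results.MP_4ed1f9_lc.LocalSymmetry.result :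
    -- (1) lower bound
    (∀ (K Ω : Type) (_ : Fintype Ω) (_ : DecidableEq Ω) (r : ℕ) (β : Fin r × Fin 4 ↪ Ω)
      (C : PNet (Ω × Ω) K) (acc : Set K),
      C.Decides acc (Mon2 Ω) (fun A => 3 ∣ sat2 A) →
      (∀ (v : Fin r) (x y z : Fin 4), x ≠ y → y ≠ z → x ≠ z →
        C.SymmUnder (H522R2.LS.diag (cyc (β (v, x)) (β (v, y)) (β (v, z))))) →
      2 ^ (r / 1440) ≤ Fintype.card C.G) ∧
    -- (2) converse
    (∀ (K Ω : Type) (_ : Fintype Ω) (_ : DecidableEq Ω) (r : ℕ) (β : Fin r × Fin 4 ↪ Ω)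
      (C : PNet (Ω × Ω) K) (enc : ℕ → K),
      (∀ A ∈ Mon2 Ω, C.val A C.out = enc (sat2 A)) →
      ∃ C' : PNet (Ω × Ω) K,
        (∀ A ∈ Mon2 Ω, C'.val A C'.out = enc (sat2 A)) ∧
        (∀ g : Equiv.Perm Ω, Preserves β g → C'.SymmUnder (H522R2.LS.diag g)) ∧
        Fintype.card C'.G = 24 ^ r * Fintype.card C.G + 1 ∧
        (∀ g', g' ≠ C'.out → ∃ g, C'.F g' = C.F g) ∧
        ∀ (o : Option ℕ) (k : K) (n : ℕ), 0 < n → C'.F C'.out o (n • ({k} : Multiset K)) = k) := by
  refine ⟨?_, ?_⟩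
  · intro K Ω _ _ r β C acc hC hsym
    exact lower_sat β C hC hsym
  · intro K Ω _ _ r β C enc hC
    exact exists_symm_sat β C enc hC

end Pool.Agent.H870R2.PC
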