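import Pool.Agent.H570R2.Modp.Main2
import Pool.Agent.H570R2.Modp.PU
import Pool.Agent.H570R2.Modp.AP
import Pool.Agent.H570R2.Modp.CP
import Pool.Agent.H255R2.Modp.AD
import Pool.Agent.H994R2.CR570

/-!
# #SAT and perfect matchings of bipartite permutation graphs modulo odd primes

`pmP l` is the number of perfect matchings of the permutation graph `permGraph l` of a list `l` of
points of the plane; `BipPerm l` says that the coordinates are distinct and the graph is bipartite.

Idea of the proof.
* A *queue program* (`Mono/Defs.lean`) appends columns to the tail of a queue, removes the column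
  at its head, and writes rows whose ones are the columns in the queue.  Its matrix has a staircase
  of ones, so it is the biadjacency matrix of a bipartite permutation graph.
* A block (portal) of `N` equal columns and `N` equal rows acts, after division by `N!`, on the
  polynomial of the remaining program as an explicit functional, polynomial in `N`.  For `N = -1` it
  is the substitution that makes the sum of the queue zero.  With `N = -1, -2, -3, -6, 1` a short
  exact program exchanges two neighbouring items of the queue, up to signs and factors; so an
  auxiliary wire can be moved through the queue to read any entry of a matrix with entries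
  `0, 1, -1`, and the value of the program is the permanent of this matrix times a known power of 2
  (`stub_val`).
* Modulo a prime `p` all items are nilpotent of order at most `p`, so that the multiplicity `N` may
  be replaced by its residue in `0, ..., p - 1` (`stub_transfer`), for which `N!` is a unit.
* `perm (satM φ) = 4 ^ L * #φ` for an explicit matrix with entries `0, 1, -1` (`stub_sat`), since
  the coefficient of `w₁ w₂` in `(-a + w₁ + w₂)(b + w₁ + w₂)(c + w₁ - w₂)(d + w₁ - w₂)` is
  `2 (a b + c d)`.
* Blocks of equal columns that multiply the value by a prescribed unit modulo `p` cancel all the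
  known factors.
* The number of satisfying assignments can be increased by `c` (`addC`), so a test of divisibility
  by `p` gives its residue modulo `p`; the residues modulo all small odd primes give the number.
-/

namespace Pool.Agent.Results.MP_4ed1f9_lc.ModularMatchings

open Pool.Agent.NPC Pool.Agent.NPC.Cnt Pool.Agent.H549R2.PM Pool.Agent.H570R2.Mono
  Pool.Agent.NPC.H570Mono

/-- The class `Mod_p P`: the inputs for which the number of certificates is not divisible by `p`. -/
def ModP (p : ℕ) (L : List Bool → Prop) : Prop :=
  ∃ f : List Bool → ℕ, SharpP f ∧ ∀ x, L x ↔ ¬ p ∣ f x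

/-- `D` decides, for every odd prime `p` (given in unary) and every bipartite permutation graph
(given by points of the plane), whether `p` divides the number of its perfect matchings. -/
def DecidesDiv (D : List Bool → List Bool) : Prop :=
  ∀ p : ℕ, p.Prime → p ≠ 2 → ∀ l : List (ℕ × ℕ), BipPerm l →
    (D (bits (List.replicate p (), l)) = [true] ↔ p ∣ pmP l)

/-- **Main theorem.**  `#SAT` is computable in polynomial time iff divisibility of the number of
perfect matchings of bipartite permutation graphs by odd primes is decidable in polynomial time,
by a reduction that is parsimonious modulo the prime; for every fixed odd prime `p` this is a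
parsimonious reduction modulo `p` of all functions in `#P` and proves completeness for `Mod_p P`. -/
theorem result :
    (FP (strFn (fun φ : CNF ℕ => satCount φ)) ↔
      ∃ D : List Bool → List Bool, PolyTime D ∧ DecidesDiv D) ∧
    (∃ g : List Bool → List Bool, PolyTime g ∧
      ∀ p : ℕ, p.Prime → p ≠ 2 → ∀ φ : CNF ℕ, ∃ l : List (ℕ × ℕ),
        g (bits (List.replicate p (), φ)) = bits l ∧ BipPerm l ∧ pmP l ≡ satCount φ [MOD p]) ∧
    ∀ p : ℕ, p.Prime → p ≠ 2 →
      (∀ f : List Bool → ℕ, SharpP f → ∃ g : List Bool → List Bool, PolyTime g ∧
        ∀ x, ∃ l : List (ℕ × ℕ), g x = bits l ∧ BipPerm l ∧ pmP l ≡ f x [MOD p]) ∧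
      ModP p (fun x => ¬ p ∣ strFn pmP x) ∧
      ∀ L, ModP p L → ∃ g : List Bool → List Bool, PolyTime g ∧ ∀ x,
        (∃ l : List (ℕ × ℕ), g x = bits l ∧ BipPerm l) ∧ (L x ↔ ¬ p ∣ strFn pmP (g x)) := by
  refine ⟨sat_iff_dec stub_polyU stub_add_poly stub_crtPoly stub_add
    Pool.Agent.H994R2.CR570.stub_crt, uniform_red stub_polyU,
    fun p hp hp2 => ⟨?_, ⟨_, stub_mem, fun x => Iff.rfl⟩, ?_⟩⟩
  · intro f hf
    obtain ⟨G, g, hg, hG⟩ := parsimonious_mod p hp hp2 f hf
    exact ⟨g, hg, fun x => ⟨G x, hG x⟩⟩
  · rintro L ⟨f, hf, hL⟩
    obtain ⟨G, g, hg, hG⟩ := parsimonious_mod p hp hp2 f hf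
    refine ⟨g, hg, fun x => ⟨⟨G x, (hG x).1, (hG x).2.1⟩, ?_⟩⟩
    rw [hL x, (hG x).1, strFn_bits, ((hG x).2.2).dvd_iff (dvd_refl p)]

end Pool.Agent.Results.MP_4ed1f9_lc.ModularMatchings
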