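import Pool.Agent.H564R3.RW.Main

/-!
Randomised approximate weighted counting on sparse instances: the exponent is the treewidth.
-/

set_option autoImplicit false

namespace Pool.Agent.Results.MP_4ed1f9_lc.SparseCounting

open Finset
open Pool.Agent.H564R3.PW (Instr exec)
open Pool.Agent.H564R3.TD
open Pool.Agent.H564R3.RN
open Pool.Agent.H564R3.RW
open scoped NNReal

/-- **Coins and approximation do not beat treewidth.** (1) Randomised subtraction-free programs
with two-sided error `e` which approximate within a factor `r'` the partition functions of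
networks whose constraints cannot be put together with bags of `k` nodes. (2) Programs for the
other networks. (3) Sparse networks whose treewidth is linear. -/
theorem result :
    (∀ (n r m : ℕ) (sc : Fin r → Finset (Fin n)), 1 ≤ r → 1 ≤ m → ∀ k : ℕ, ¬ TW sc k univ →
      ∀ (ρ : Type) [DecidableEq ρ] (Λ : Type) [Fintype Λ] (e : ℝ) (r' : ℝ≥0) (pr : Λ → ℝ)
        (p : Λ → List (Instr ℝ≥0 (CVar n r m) ρ)) (o : ρ),
        RandomApprox sc e r' pr p o → ∀ T : ℕ, (∀ l, (p l).length ≤ T) →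
          (1 - 2 * e) * (m : ℝ) ^ (k + 1) ≤ (T : ℝ)) ∧
    (∀ (n r m : ℕ) (sc : Fin r → Finset (Fin n)), (∀ v, ∃ e, v ∈ sc e) → 1 ≤ m →
      ∀ k : ℕ, TW sc k univ → ∀ (R : Type) [CommSemiring R],
        ∃ (ρ : Type) (_ : DecidableEq ρ) (p : List (Instr R (CVar n r m) ρ)) (o : ρ),
          p.length ≤ 4 * r * m ^ k ∧ ∀ w : CVar n r m → R, exec w p o = netSum sc w) ∧
    (∀ n : ℕ, 1 ≤ n → ∃ sc : Fin (23 * n) → Finset (Fin n),
      (∀ e, 1 ≤ (sc e).card ∧ (sc e).card ≤ 2) ∧ (∀ v, ∃ e, v ∈ sc e) ∧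
      ∀ m : ℕ, 1 ≤ m → ∀ (ρ : Type) [DecidableEq ρ] (Λ : Type) [Fintype Λ] (e : ℝ) (r' : ℝ≥0)
        (pr : Λ → ℝ) (p : Λ → List (Instr ℝ≥0 (CVar n (23 * n) m) ρ)) (o : ρ),
        RandomApprox sc e r' pr p o → ∀ T : ℕ, (∀ l, (p l).length ≤ T) →
          (1 - 2 * e) * (m : ℝ) ^ (n / 8 + 1) ≤ (T : ℝ)) := by
  refine ⟨?_, ?_, ?_⟩
  · intro n r m sc hr hm k hk ρ _ Λ _ e r' pr p o h T hT
    exact tw_approx sc hr hm k hk e r' pr p o h T hT
  · intro n r m sc hcov hm k hk R _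
    exact tw_up hm sc hcov k hk
  · intro n hn
    obtain ⟨sc, h1, h2, h3⟩ := net_sparse n hn
    refine ⟨sc, h1, h2, ?_⟩
    intro m hm ρ _ Λ _ e r' pr p o h T hT
    exact tw_approx sc (by omega) hm (n / 8) (h3 _ (by omega)) e r' pr p o h T hT

end Pool.Agent.Results.MP_4ed1f9_lc.SparseCounting
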