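import Pool.Agent.H549R2.TO.M3

/-!
# Hamiltonian paths of tournaments are as hard as `#P`

A tournament is given by its adjacency matrix, a list `A` of rows: `ent A i j` is the entry in row
`i` and column `j`, and `IsTour A` says that the matrix is square and that for all `i`, `j` there
is an arc from `i` to `j` iff `i` and `j` are different and there is no arc from `j` to `i`.
`TwoChain A` says that for some `p` both the vertices `0, ..., p - 1` and the other vertices form a
transitive tournament, with all arcs from smaller to larger numbers.  `hp A` is the number of
Hamiltonian paths, `hc A` the number of Hamiltonian cycles and `mf A` the number of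
inclusion-minimal feedback arc sets (`Pool/Agent/H549R2/TO/Defs.lean`).  `onProp P f` is `f` on the
lists with property `P` and `0` on the others, `TT2` is the conjunction of `IsTour` and `TwoChain`
(`Pool/Agent/H549R2/TO/M3.lean`, `M2.lean`).  `SharpP`, `SharpPHard` and `FP` are defined in
`Pool/Agent/H527R2/SharpP.lean`, `PolyTime` is Mathlib's notion of polynomial time on Turing
machines.

Idea of the proof.  Let `B` be an `n` by `n` matrix with entries `0` and `1`.  The tournament
`TT B m` has vertices `x_1, ..., x_n, s_1, ..., s_m, y_1, ..., y_n`; the `x` and the `s` together
and the `y` form transitive tournaments, all arcs between an `s` and a `y` go to the `y`, and there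
is an arc from `y_j` to `x_i` iff `B j i = 1`.

* The orders of the `x` and `y` in a Hamiltonian path being fixed, the `s` are distributed over the
  gaps of this order.  A gap contributes to the exponential generating function in `m` one of `0`,
  `1`, `X`, `X - 1` where `X = exp z`: the nonempty sets of `s` fit between `u` and `v` iff `u` is an
  `x` (or the gap is the first one) and `v` is an `y` (or the gap is the last one), the empty set
  iff there is an arc from `u` to `v`.
* The product over the `2 n + 1` gaps has degree at most `n + 1` in `X`, with equality only for the
  orders `y x y x ... y x` (here the gap before the first `y` and the gap after the last `x` count),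
  and then the coefficient of `X ^ (n + 1)` is the product of the entries of `B` at the `n` gaps
  between an `y` and the next `x`.  The sum over all orders is `n!` times the permanent.
* The coefficient of `X ^ (n + 1)` is recovered by Stirling numbers of the first kind:
  `∑ m, s(n + 1, m) * hp (TT B m) = (n + 1)! * n! * per B`.

Two more vertices change Hamiltonian paths into Hamiltonian cycles, and the inclusion-minimal
feedback arc sets of a tournament are the backward arcs of its Hamiltonian paths.

The files in `Pool/Agent/H549R2/TO` were written together with helpers 18, 20, 25, 116, 214, 259,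
318, 401, 512, 546, 793 and 949 of the team.
-/

namespace Pool.Agent.Results.MP_4ed1f9_lc.TournamentHamiltonPaths

open Pool.Agent.NPC Pool.Agent.NPC.Cnt Pool.Agent.H549R2.TO Pool.Agent.NPC.H549TO

/-- **Main theorem.** Counting the Hamiltonian paths of tournaments, the Hamiltonian cycles of
tournaments and the inclusion-minimal feedback arc sets of tournaments is `#P`-complete under
polynomial-time Turing reductions, also for tournaments that consist of two transitive
tournaments; and each of the three numbers can be computed in polynomial time for all these
tournaments iff `#P ⊆ FP`. -/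
theorem result : ∀ f ∈ [hp, hc, mf],
    (SharpP (strFn (onProp IsTour f)) ∧ SharpPHard (strFn (onProp IsTour f))) ∧
    (SharpP (strFn (onProp TT2 f)) ∧ SharpPHard (strFn (onProp TT2 f))) ∧
    ((∀ k : List Bool → ℕ, SharpP k → FP k) ↔
      ∃ g : List Bool → List Bool, PolyTime g ∧
        ∀ A : List (List Bool), IsTour A → TwoChain A → g (bits A) = (f A).bits) := by
  intro f hf
  simp only [List.mem_cons, List.not_mem_nil, or_false] at hf
  rcases hf with rfl | rfl | rfl
  · exact ⟨⟨sharpP_hp, hard_prop nred_sat_hp IsTour (fun _ h => h.1) fun A _ => hp_le A⟩,
      ⟨sharpP_hp2, hard_prop nred_sat_hp TT2 (fun _ h => h) fun A _ => hp_le A⟩,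
      fp_iff_prop nred_sat_hp sharpP_hp2⟩
  · exact ⟨⟨sharpP_hc, hard_prop nred_sat_hc IsTour (fun _ h => h.1) fun A _ => hc_le A⟩,
      ⟨sharpP_hc2, hard_prop nred_sat_hc TT2 (fun _ h => h) fun A _ => hc_le A⟩,
      fp_iff_prop nred_sat_hc sharpP_hc2⟩
  · exact ⟨⟨sharpP_mf, hard_prop nred_sat_mf IsTour (fun _ h => h.1) mf_le⟩,
      ⟨sharpP_mf2, hard_prop nred_sat_mf TT2 (fun _ h => h) fun A h => mf_le A h.1⟩,
      fp_iff_prop nred_sat_mf sharpP_mf2⟩

end Pool.Agent.Results.MP_4ed1f9_lc.TournamentHamiltonPaths
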